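import Mathlib

/-!
# The survival number of hyperbolic vertex-transitive graphs (MP_5fb5c8, Q1)

An infinite, connected, locally finite, vertex-transitive, hyperbolic graph which does not have
linear growth has infinite survival number.
-/

namespace Pool.Agent.Results.MP_5fb5c8_co.HyperbolicSurvival

open SimpleGraph

variable {V : Type*}

/-- The ball `B(v, r)`. -/
def Ball (G : SimpleGraph V) (v : V) (r : ℕ) : Set V := {u | G.dist u v ≤ r}

/-- Every vertex can be moved to every other vertex by an automorphism. -/
def VertexTransitive (G : SimpleGraph V) : Prop := ∀ u v : V, ∃ φ : G ≃g G, φ u = v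

/-- Hyperbolicity: for some `δ`, every geodesic triangle has each side in the `δ`-neighbourhood of
the other two. Only triangles whose corners are vertices of the graph are considered, and only the
vertices of the sides; this follows (with a larger `δ`) from the slimness of all geodesic triangles
of the graph as a geodesic metric space. -/
def Hyperbolic (G : SimpleGraph V) : Prop :=
  ∃ δ : ℕ, ∀ (x y z : V) (p : G.Walk x y) (q : G.Walk y z) (r : G.Walk x z),
    p.length = G.dist x y → q.length = G.dist y z → r.length = G.dist x z →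
      ∀ v ∈ p.support, ∃ w, (w ∈ q.support ∨ w ∈ r.support) ∧ G.dist v w ≤ δ

/-- The sizes of the balls are bounded by a linear function of the radius. -/
def LinearGrowth (G : SimpleGraph V) : Prop :=
  ∃ C : ℕ, ∀ (v : V) (r : ℕ), (Ball G v r).ncard ≤ C * (r + 1)

/-- The Voronoi cell of `v` with respect to `T`. -/
def Cell (G : SimpleGraph V) (v : V) (T : Finset V) : Set V :=
  {u | ∀ v' ∈ T, G.dist u v ≤ G.dist u v'}

/-- The family `𝒯(D, n)`. -/
def Sites (G : SimpleGraph V) (D n : ℕ) : Set (Finset V) :=
  {T | n ≤ T.card ∧ ∀ v₁ ∈ T, ∀ v₂ ∈ T, v₁ ≠ v₂ → D < G.dist v₁ v₂}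

/-- The number of sites with an infinite Voronoi cell. -/
noncomputable def numInfinite (G : SimpleGraph V) (T : Finset V) : ℕ :=
  {v | v ∈ T ∧ (Cell G v T).Infinite}.ncard

/-- The survival number. -/
noncomputable def survival (G : SimpleGraph V) : ℕ∞ :=
  sSup {m : ℕ∞ | ∃ n : ℕ, 1 ≤ n ∧ m = n ∧ ∃ D : ℕ, ∀ T ∈ Sites G D n, n ≤ numInfinite G T}

/-! ### Geodesics -/

section geodesic

variable {G : SimpleGraph V} (hG : G.Connected)
include hG

lemma tri (x y z : V) : G.dist x z ≤ G.dist x y + G.dist y z := hG.dist_triangle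

lemma geo_point (x y : V) (k : ℕ) (hk : k ≤ G.dist x y) :
    ∃ u, G.dist x u = k ∧ G.dist u y = G.dist x y - k := by
  obtain ⟨p, hp⟩ := hG.exists_walk_length_eq_dist x y
  refine ⟨p.getVert k, ?_, ?_⟩
  · have h1 := dist_le (p.take k)
    have h2 := dist_le (p.drop k)
    rw [Walk.take_length] at h1
    rw [Walk.drop_length] at h2
    have h3 := tri hG x (p.getVert k) y
    have h4 := min_le_left k p.length
    omega
  · have h1 := dist_le (p.take k)
    have h2 := dist_le (p.drop k)
    rw [Walk.take_length] at h1
    rw [Walk.drop_length] at h2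
    have h3 := tri hG x (p.getVert k) y
    have h4 := min_le_left k p.length
    omega

lemma support_geo {x y : V} {p : G.Walk x y} (hp : p.length = G.dist x y) {v : V}
    (hv : v ∈ p.support) : G.dist x v + G.dist v y = G.dist x y := by
  rw [Walk.mem_support_iff_exists_getVert] at hv
  obtain ⟨k, rfl, hk⟩ := hv
  have h1 := dist_le (p.take k)
  have h2 := dist_le (p.drop k)
  rw [Walk.take_length] at h1
  rw [Walk.drop_length] at h2
  have h3 := tri hG x (p.getVert k) y
  have h4 := min_le_left k p.length
  omega

/-- Twice the Gromov product. -/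
noncomputable def P (G : SimpleGraph V) (w x y : V) : ℤ :=
  (G.dist w x : ℤ) + G.dist w y - G.dist x y

omit hG in
lemma P_comm (w x y : V) : P G w x y = P G w y x := by
  unfold P
  rw [dist_comm (u := x) (v := y)]
  ring

/-- The product is at most twice the distance from any point of a geodesic. -/
lemma P_le {w x y v : V} (hv : G.dist x v + G.dist v y = G.dist x y) :
    P G w x y ≤ 2 * (G.dist w v : ℤ) := by
  unfold P
  have h1 := tri hG w v x
  have h2 := tri hG w v y
  rw [dist_comm (u := v) (v := x)] at h1
  omega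

/-- Some point of a geodesic is close to the base point, compared with the product. -/
lemma exists_close {δ : ℕ} (hδ : ∀ (x y z : V) (p : G.Walk x y) (q : G.Walk y z) (r : G.Walk x z),
    p.length = G.dist x y → q.length = G.dist y z → r.length = G.dist x z →
      ∀ v ∈ p.support, ∃ w, (w ∈ q.support ∨ w ∈ r.support) ∧ G.dist v w ≤ δ)
    (w : V) {x y : V} (p : G.Walk x y) (hp : p.length = G.dist x y) :
    ∃ v ∈ p.support, 2 * (G.dist w v : ℤ) ≤ P G w x y + 4 * (δ + 1) := by
  obtain ⟨q, hq⟩ := hG.exists_walk_length_eq_dist y w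
  obtain ⟨r, hr⟩ := hG.exists_walk_length_eq_dist x w
  have near := hδ x y w p q r hp hq hr
  have key : ∃ k, (∃ a ∈ r.support, G.dist (p.getVert k) a ≤ δ + 1) ∧
      ∃ b ∈ q.support, G.dist (p.getVert k) b ≤ δ + 1 := by
    by_contra hcon
    push Not at hcon
    have hA : ∀ k, ∃ a ∈ r.support, G.dist (p.getVert k) a ≤ δ + 1 := by
      intro k
      induction k with
      | zero => exact ⟨x, r.start_mem_support, by simp⟩
      | succ k ih =>
        obtain ⟨a, ha, haw⟩ := near (p.getVert (k + 1)) (p.getVert_mem_support (k + 1))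
        rcases ha with ha | ha
        · exfalso
          have h1 := hcon k ih a ha
          have h2 : G.dist (p.getVert k) (p.getVert (k + 1)) ≤ 1 := by
            by_cases hk : k < p.length
            · exact le_of_eq (dist_eq_one_iff_adj.2 (p.adj_getVert_succ hk))
            · rw [p.getVert_of_length_le (by omega), p.getVert_of_length_le (by omega)]
              simp
          have h3 := tri hG (p.getVert k) (p.getVert (k + 1)) a
          omega
        · exact ⟨a, ha, by omega⟩
    have h1 := hcon p.length (hA p.length) y q.start_mem_support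
    rw [p.getVert_length] at h1
    simp at h1
  obtain ⟨k, ⟨a, ha, ha'⟩, b, hb, hb'⟩ := key
  refine ⟨p.getVert k, p.getVert_mem_support k, ?_⟩
  have hv := support_geo hG hp (p.getVert_mem_support k)
  have e1 := support_geo hG hr ha
  have e2 := support_geo hG hq hb
  generalize p.getVert k = v at *
  have t1 := tri hG x a v
  have t2 := tri hG v a w
  have t3 := tri hG y b v
  have t4 := tri hG v b w
  have c1 : G.dist a v = G.dist v a := dist_comm
  have c2 : G.dist b v = G.dist v b := dist_comm
  have c3 : G.dist y v = G.dist v y := dist_comm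
  have c4 : G.dist w v = G.dist v w := dist_comm
  have c5 : G.dist w x = G.dist x w := dist_comm
  have c6 : G.dist w y = G.dist y w := dist_comm
  unfold P
  omega

/-- The four point condition. -/
lemma four_point (hh : Hyperbolic G) : ∃ Δ : ℕ, ∀ w x y z : V,
    P G w x y ≤ P G w x z + Δ ∨ P G w y z ≤ P G w x z + Δ := by
  obtain ⟨δ, hδ⟩ := hh
  refine ⟨6 * δ + 4, fun w x y z => ?_⟩
  obtain ⟨p, hp⟩ := hG.exists_walk_length_eq_dist x z
  obtain ⟨q, hq⟩ := hG.exists_walk_length_eq_dist z y
  obtain ⟨r, hr⟩ := hG.exists_walk_length_eq_dist x y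
  obtain ⟨v, hv, hvw⟩ := exists_close hG hδ w p hp
  obtain ⟨v', hv', hvv⟩ := hδ x z y p q r hp hq hr v hv
  have t := tri hG w v v'
  rcases hv' with hv' | hv'
  · right
    have h1 := P_le hG (w := w) (support_geo hG hq hv')
    rw [P_comm]
    push_cast
    omega
  · left
    have h1 := P_le hG (w := w) (support_geo hG hr hv')
    push_cast
    omega

end geodesic

/-! ### Balls, automorphisms and far points -/

section transitive

variable {G : SimpleGraph V} (hG : G.Connected) (hfin : ∀ v, (G.neighborSet v).Finite)
include hG hfin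

lemma ball_finite (v : V) (r : ℕ) : (Ball G v r).Finite := by
  induction r with
  | zero =>
    apply (Set.finite_singleton v).subset
    intro u hu
    have h1 : G.dist u v = 0 := Nat.le_zero.1 hu
    exact hG.dist_eq_zero_iff.1 h1
  | succ r ih =>
    have h1 : (⋃ u ∈ Ball G v r, G.neighborSet u).Finite := ih.biUnion (fun u _ => hfin u)
    apply (ih.union h1).subset
    intro u hu
    have hu' : G.dist u v ≤ r + 1 := hu
    rcases Nat.lt_or_ge r (G.dist u v) with h2 | h2
    · right
      obtain ⟨u', hu1, hu2⟩ := geo_point hG u v 1 (by omega)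
      rw [Set.mem_iUnion₂]
      refine ⟨u', ?_, ?_⟩
      · change G.dist u' v ≤ r
        omega
      · exact (dist_eq_one_iff_adj.1 hu1).symm
    · left
      exact h2

lemma exists_dist [Infinite V] (o : V) (r : ℕ) : ∃ y, G.dist o y = r := by
  obtain ⟨z, hz⟩ := (ball_finite hG hfin o r).infinite_compl.nonempty
  have hz' : ¬ G.dist z o ≤ r := hz
  rw [dist_comm] at hz'
  obtain ⟨y, hy, -⟩ := geo_point hG o z r (by omega)
  exact ⟨y, hy⟩

omit hG hfin in
lemma dist_map (φ : G ≃g G) (hG : G.Connected) (x y : V) :
    G.dist (φ x) (φ y) = G.dist x y := by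
  have h : ∀ (ψ : G ≃g G) (a b : V), G.dist (ψ a) (ψ b) ≤ G.dist a b := by
    intro ψ a b
    obtain ⟨p, hp⟩ := hG.exists_walk_length_eq_dist a b
    have := dist_le (p.map ψ.toHom)
    rw [Walk.length_map, hp] at this
    exact this
  apply le_antisymm (h φ x y)
  have := h φ.symm (φ x) (φ y)
  simpa using this

/-- Two-sided geodesics through every vertex. -/
lemma two_sided [Infinite V] (ht : VertexTransitive G) (x : V) (t : ℕ) :
    ∃ y y', G.dist x y = t ∧ G.dist x y' = t ∧ G.dist y y' = 2 * t := by
  obtain ⟨z, hz⟩ := exists_dist hG hfin x (2 * t)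
  obtain ⟨m, hm1, hm2⟩ := geo_point hG x z t (by omega)
  obtain ⟨φ, hφ⟩ := ht m x
  refine ⟨φ x, φ z, ?_, ?_, ?_⟩
  · rw [← hφ, dist_map φ hG, dist_comm, hφ, hm1]
  · nth_rw 1 [← hφ]
    rw [dist_map φ hG]
    omega
  · rw [dist_map φ hG, hz]

lemma ball_ncard_eq (ht : VertexTransitive G) (u v : V) (r : ℕ) :
    (Ball G u r).ncard = (Ball G v r).ncard := by
  obtain ⟨φ, hφ⟩ := ht u v
  have : Ball G v r = φ '' Ball G u r := by
    ext x
    constructor
    · intro hx
      refine ⟨φ.symm x, ?_, by simp⟩
      change G.dist (φ.symm x) u ≤ r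
      rw [← dist_map φ hG, hφ]
      have hx' : G.dist x v ≤ r := hx
      simpa using hx'
    · rintro ⟨y, hy, rfl⟩
      change G.dist (φ y) v ≤ r
      rw [← hφ, dist_map φ hG]
      exact hy
  rw [this, Set.ncard_image_of_injective _ φ.injective]

/-- Arbitrarily far `n`-tuples of points with pairwise bounded products. -/
def Spread (G : SimpleGraph V) (o : V) (n : ℕ) : Prop :=
  ∃ K : ℤ, ∀ R : ℕ, ∃ y : Fin n → V, (∀ i, R ≤ G.dist o (y i)) ∧
    ∀ i j, i ≠ j → P G o (y i) (y j) ≤ K

lemma spread_one [Infinite V] (o : V) : Spread G o 1 := by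
  refine ⟨0, fun R => ?_⟩
  obtain ⟨y, hy⟩ := exists_dist hG hfin o R
  exact ⟨fun _ => y, fun _ => hy.ge, fun i j hij => absurd (Subsingleton.elim i j) hij⟩

lemma spread_succ [Infinite V] (ht : VertexTransitive G) (hh : Hyperbolic G)
    (hl : ¬ LinearGrowth G) (o : V) (n : ℕ) (hn : Spread G o n) : Spread G o (n + 1) := by
  classical
  obtain ⟨Δ, hΔ⟩ := four_point hG hh
  by_contra hno
  obtain ⟨K0, hK0⟩ := hn
  apply hl
  -- spheres are covered by `n` balls of radius `3 Δ`
  have cover : ∀ r : ℕ, ∃ u : Fin n → V, ∀ x, G.dist o x = r →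
      ∃ i, x ∈ Ball G (u i) (3 * Δ) := by
    intro r
    unfold Spread at hno
    push Not at hno
    obtain ⟨R, hR⟩ := hno (max K0 (2 * r))
    obtain ⟨z, hz1, hz2⟩ := hK0 (max R r)
    have hzr : ∀ i, r ≤ G.dist o (z i) := fun i => (le_max_right R r).trans (hz1 i)
    choose u hu1 hu2 using fun i => geo_point hG o (z i) r (hzr i)
    refine ⟨u, fun x hx => ?_⟩
    -- a far point behind `x`
    obtain ⟨y, hy1, hy2⟩ : ∃ y, R ≤ G.dist o y ∧ 2 * (r : ℤ) - Δ ≤ P G o y x := by
      obtain ⟨y, y', h1, h2, h3⟩ := two_sided hG hfin ht x (R + Δ)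
      have h4 : P G x y y' = 0 := by
        unfold P
        rw [h1, h2, h3]
        push_cast
        ring
      rcases hΔ x y o y' with h5 | h5
      · rw [h4] at h5
        refine ⟨y, ?_, ?_⟩
        · unfold P at h5
          rw [h1, dist_comm (u := x) (v := o), hx, dist_comm (u := y) (v := o)] at h5
          push_cast at h5
          omega
        · unfold P at h5 ⊢
          rw [h1, dist_comm (u := x) (v := o), hx, dist_comm (u := y) (v := o)] at h5
          rw [hx, dist_comm (u := y) (v := x), h1]
          push_cast at h5 ⊢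
          omega
      · rw [h4] at h5
        refine ⟨y', ?_, ?_⟩
        · unfold P at h5
          rw [h2, dist_comm (u := x) (v := o), hx] at h5
          push_cast at h5
          omega
        · unfold P at h5 ⊢
          rw [h2, dist_comm (u := x) (v := o), hx] at h5
          rw [hx, dist_comm (u := y') (v := x), h2]
          push_cast at h5 ⊢
          omega
    -- some `z i` has a large product with `y`
    obtain ⟨i, hi⟩ : ∃ i, 2 * (r : ℤ) < P G o y (z i) := by
      obtain ⟨a, b, hab, hP⟩ := hR (Fin.snoc z y) (by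
        intro a
        refine Fin.lastCases ?_ (fun a => ?_) a
        · simpa using hy1
        · simpa using (le_max_left R r).trans (hz1 a))
      revert hab hP
      refine Fin.lastCases ?_ (fun a => ?_) a <;> refine Fin.lastCases ?_ (fun b => ?_) b
      · intro hab _
        exact absurd rfl hab
      · intro _ hP
        simp only [Fin.snoc_last, Fin.snoc_castSucc] at hP
        exact ⟨b, lt_of_le_of_lt (le_max_right _ _) hP⟩
      · intro _ hP
        simp only [Fin.snoc_last, Fin.snoc_castSucc] at hP
        rw [P_comm] at hP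
        exact ⟨a, lt_of_le_of_lt (le_max_right _ _) hP⟩
      · intro hab hP
        simp only [Fin.snoc_castSucc] at hP
        have h1 : a ≠ b := fun h => hab (by rw [h])
        have h2 := hz2 a b h1
        exact absurd (lt_of_le_of_lt (le_max_left _ _) hP) (not_lt.2 h2)
    refine ⟨i, ?_⟩
    change G.dist x (u i) ≤ 3 * Δ
    have h1 : 2 * (r : ℤ) - 2 * Δ ≤ P G o x (z i) := by
      rcases hΔ o x y (z i) with h | h
      · rw [P_comm] at h
        linarith
      · linarith
    have h2 : P G o (z i) (u i) = 2 * r := by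
      unfold P
      rw [hu1 i, dist_comm (u := z i) (v := u i), hu2 i]
      have := hzr i
      omega
    have h3 : 2 * (r : ℤ) - 3 * Δ ≤ P G o x (u i) := by
      rcases hΔ o x (z i) (u i) with h | h
      · linarith
      · rw [h2] at h
        have : (0 : ℤ) ≤ Δ := by positivity
        linarith
    unfold P at h3
    rw [hx, hu1 i] at h3
    omega
  -- hence linear growth
  set β := (Ball G o (3 * Δ)).ncard with hβ
  refine ⟨n * β, fun v r => ?_⟩
  rw [ball_ncard_eq hG hfin ht v o r]
  choose u hu using cover
  have hsub : Ball G o r ⊆ ((Finset.range (r + 1) ×ˢ (Finset.univ : Finset (Fin n))).biUnion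
      (fun p => (ball_finite hG hfin (u p.1 p.2) (3 * Δ)).toFinset) : Finset V) := by
    intro x hx
    have hx' : G.dist x o ≤ r := hx
    rw [dist_comm] at hx'
    obtain ⟨i, hi⟩ := hu (G.dist o x) x rfl
    rw [Finset.mem_coe, Finset.mem_biUnion]
    refine ⟨(G.dist o x, i), ?_, ?_⟩
    · rw [Finset.mem_product, Finset.mem_range]
      exact ⟨by simpa using Nat.lt_succ_of_le hx', Finset.mem_univ _⟩
    · rw [Set.Finite.mem_toFinset]
      exact hi
  calc (Ball G o r).ncard ≤ ((Finset.range (r + 1) ×ˢ (Finset.univ : Finset (Fin n))).biUnion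
      (fun p => (ball_finite hG hfin (u p.1 p.2) (3 * Δ)).toFinset)).card := by
        rw [← Set.ncard_coe_finset]
        exact Set.ncard_le_ncard hsub (Finset.finite_toSet _)
    _ ≤ (Finset.range (r + 1) ×ˢ (Finset.univ : Finset (Fin n))).card * β := by
        apply Finset.card_biUnion_le_card_mul
        intro p _
        rw [← Set.ncard_eq_toFinset_card _ (ball_finite hG hfin (u p.1 p.2) (3 * Δ)), hβ]
        exact (ball_ncard_eq hG hfin ht _ _ _).le
    _ = n * β * (r + 1) := by
        rw [Finset.card_product, Finset.card_range, Finset.card_univ, Fintype.card_fin]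
        ring

lemma spread_all [Infinite V] (ht : VertexTransitive G) (hh : Hyperbolic G)
    (hl : ¬ LinearGrowth G) (o : V) (n : ℕ) (hn : 1 ≤ n) : Spread G o n := by
  induction n, hn using Nat.le_induction with
  | base => exact spread_one hG hfin o
  | succ n _ ih => exact spread_succ hG hfin ht hh hl o n ih

/-- The main step: with far apart sites, many Voronoi cells are infinite. -/
lemma many_infinite [Infinite V] (ht : VertexTransitive G) (hh : Hyperbolic G)
    (hl : ¬ LinearGrowth G) (n : ℕ) (hn : 1 ≤ n) :
    ∃ D : ℕ, ∀ T ∈ Sites G D n, n ≤ numInfinite G T := by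
  classical
  obtain ⟨Δ, hΔ⟩ := four_point hG hh
  obtain ⟨o⟩ : Nonempty V := inferInstance
  obtain ⟨K, hK⟩ := spread_all hG hfin ht hh hl o n hn
  refine ⟨K.toNat + Δ, fun T hT => ?_⟩
  have hfinT : {v | v ∈ T ∧ (Cell G v T).Infinite}.Finite :=
    T.finite_toSet.subset (fun v hv => hv.1)
  -- spread tuples from every vertex
  have hK' : ∀ (w : V) (R : ℕ), ∃ y : Fin n → V, (∀ i, R ≤ G.dist w (y i)) ∧
      ∀ i j, i ≠ j → P G w (y i) (y j) ≤ K := by
    intro w R
    obtain ⟨φ, hφ⟩ := ht o w
    obtain ⟨y, hy1, hy2⟩ := hK R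
    refine ⟨fun i => φ (y i), fun i => ?_, fun i j hij => ?_⟩
    · rw [← hφ, dist_map φ hG]
      exact hy1 i
    · unfold P
      rw [← hφ, dist_map φ hG, dist_map φ hG, dist_map φ hG]
      exact hy2 i j hij
  have hTne : T.Nonempty := by
    rw [← Finset.card_pos]
    have := hT.1
    omega
  by_cases hall : ∀ w ∈ T, (Cell G w T).Infinite
  · have : {v | v ∈ T ∧ (Cell G v T).Infinite} = (T : Set V) := by
      ext v
      exact ⟨fun h => h.1, fun h => ⟨h, hall v h⟩⟩
    unfold numInfinite
    rw [this, Set.ncard_coe_finset]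
    exact hT.1
  · push Not at hall
    obtain ⟨w, hw, hcell⟩ := hall
    -- beyond some radius no point belongs to the cell of `w`
    obtain ⟨R0, hR0⟩ : ∃ R0, ∀ u ∈ Cell G w T, G.dist w u < R0 := by
      obtain ⟨M, hM⟩ := (hcell.image (fun u => G.dist w u)).bddAbove
      exact ⟨M + 1, fun u hu => Nat.lt_succ_of_le (hM ⟨u, hu, rfl⟩)⟩
    choose y hy1 hy2 using fun R => hK' w (max R R0)
    -- the nearest sites
    have near : ∀ u : V, ∃ v ∈ T, u ∈ Cell G v T := by
      intro u
      obtain ⟨v, hv, hmin⟩ := T.exists_min_image (fun v => G.dist u v) hTne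
      exact ⟨v, hv, hmin⟩
    choose s hs1 hs2 using near
    have hsw : ∀ R i, s (y R i) ≠ w := by
      intro R i h
      have h1 := hs2 (y R i)
      rw [h] at h1
      have h2 := hR0 _ h1
      have h3 := hy1 R i
      have h4 := le_max_right R R0
      omega
    have hinj : ∀ R, Function.Injective (fun i => s (y R i)) := by
      intro R i j hij
      by_contra hne
      simp only at hij
      have hbig : ∀ i, (K.toNat + Δ : ℤ) < P G w (y R i) (s (y R i)) := by
        intro i
        have h1 : G.dist (y R i) (s (y R i)) ≤ G.dist (y R i) w := hs2 (y R i) w hw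
        have h2 := hT.2 w hw (s (y R i)) (hs1 _) (hsw R i).symm
        unfold P
        rw [dist_comm (u := y R i) (v := w)] at h1
        omega
      have h1 := hbig i
      have h2 := hbig j
      rw [← hij] at h2
      have h3 := hy2 R i j hne
      have h4 : K ≤ K.toNat := Int.self_le_toNat K
      rcases hΔ w (y R i) (s (y R i)) (y R j) with h | h
      · omega
      · rw [P_comm] at h
        omega
    -- pigeonhole on the tuple of sites
    have hpig : ∃ f : Fin n → V, {R : ℕ | (fun i => s (y R i)) = f}.Infinite := by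
      let g : ℕ → (Fin n → T) := fun R i => ⟨s (y R i), hs1 _⟩
      obtain ⟨f, hf⟩ := Finite.exists_infinite_fiber g
      refine ⟨fun i => (f i : V), ?_⟩
      have hinf : (g ⁻¹' {f}).Infinite := Set.infinite_coe_iff.1 hf
      apply hinf.mono
      intro R hR
      have hR' : g R = f := hR
      change (fun i => s (y R i)) = fun i => (f i : V)
      rw [← hR']
    obtain ⟨f, hf⟩ := hpig
    have hfinj : Function.Injective f := by
      obtain ⟨R, hR⟩ := hf.nonempty
      rw [← (hR : (fun i => s (y R i)) = f)]
      exact hinj R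
    have hfcell : ∀ i, f i ∈ T ∧ (Cell G (f i) T).Infinite := by
      intro i
      obtain ⟨R1, hR1⟩ := hf.nonempty
      have hR1' : (fun i => s (y R1 i)) = f := hR1
      refine ⟨by rw [← hR1']; exact hs1 _, ?_⟩
      intro hfi
      obtain ⟨M, hM⟩ := (hfi.image (fun u => G.dist w u)).bddAbove
      obtain ⟨R, hR, hRM⟩ := hf.exists_gt M
      have hR' : (fun i => s (y R i)) = f := hR
      have h1 := hs2 (y R i)
      have h2 : s (y R i) = f i := congrFun hR' i
      rw [h2] at h1
      have h3 := hM ⟨_, h1, rfl⟩
      have h4 := hy1 R i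
      have h5 := le_max_left R R0
      simp only at h3
      omega
    unfold numInfinite
    calc n = (Finset.univ.image f).card := by
          rw [Finset.card_image_of_injective _ hfinj, Finset.card_univ, Fintype.card_fin]
      _ = ((Finset.univ.image f : Finset V) : Set V).ncard := (Set.ncard_coe_finset _).symm
      _ ≤ _ := by
          apply Set.ncard_le_ncard _ hfinT
          intro v hv
          rw [Finset.mem_coe, Finset.mem_image] at hv
          obtain ⟨i, -, rfl⟩ := hv
          exact hfcell i

end transitive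

/-- **Result.** Let `G` be an infinite, connected, locally finite, vertex-transitive graph which is
hyperbolic and does not have linear growth. Then the survival number of `G` is infinite. -/
theorem result [Infinite V] (G : SimpleGraph V) (hconn : G.Connected)
    (hfin : ∀ v, (G.neighborSet v).Finite) (htrans : VertexTransitive G) (hhyp : Hyperbolic G)
    (hlin : ¬ LinearGrowth G) : survival G = ⊤ := by
  rw [ENat.eq_top_iff_forall_ge]
  intro m
  have h := many_infinite hconn hfin htrans hhyp hlin (m + 1) (by omega)
  have h1 : ((m + 1 : ℕ) : ℕ∞) ≤ survival G := le_sSup ⟨m + 1, by omega, rfl, h⟩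
  refine le_trans ?_ h1
  exact_mod_cast Nat.le_succ m

end Pool.Agent.Results.MP_5fb5c8_co.HyperbolicSurvival
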